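import Pool.Agent.Q294.Hb4

/-!
Bridges and arcs (half-plane walks with both ends on the boundary) of a fixed length on the
honeycomb lattice: polynomial bounds, pointwise in the length.
-/

set_option autoImplicit false

namespace Pool.Agent.Results.MP_b440f6_pr.BridgesAndArcs

/-- Adjacency in the honeycomb lattice (brick-wall model), as in the frozen statement. -/
def Nbr (p q : ℤ × ℤ) : Prop :=
  (p.2 = q.2 ∧ (p.1 - q.1 = 1 ∨ q.1 - p.1 = 1)) ∨
    (p.1 = q.1 ∧ ((q.2 = p.2 + 1 ∧ Even (p.1 + p.2)) ∨ (p.2 = q.2 + 1 ∧ Even (q.1 + q.2))))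

/-- The set of `n`-step self-avoiding walks from the origin. -/
def walks (n : ℕ) : Set (Fin (n + 1) → ℤ × ℤ) :=
  {ω | ω 0 = (0, 0) ∧ Function.Injective ω ∧ ∀ i : Fin n, Nbr (ω i.castSucc) (ω i.succ)}

/-- The level of a vertex. In the regular honeycomb lattice, the level is an increasing function of
the coordinate in the direction of the edge from `(0, 0)` to `(1, 0)`. -/
def level (p : ℤ × ℤ) : ℤ := p.1 - p.2

/-- The bridges with `n` steps: the origin is the only vertex of the lowest level, and the last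
vertex has the highest level. -/
def bridges (n : ℕ) : Set (Fin (n + 1) → ℤ × ℤ) :=
  {ω ∈ walks n | ∀ i, i ≠ 0 → level (ω 0) < level (ω i) ∧ level (ω i) ≤ level (ω (Fin.last n))}

/-- The arcs with `n` steps: walks in the half-plane of the vertices of nonnegative level, both
ends of which are on its boundary. -/
def arcs (n : ℕ) : Set (Fin (n + 1) → ℤ × ℤ) :=
  {ω ∈ walks n | (∀ i, 0 ≤ level (ω i)) ∧ level (ω (Fin.last n)) = 0}

/-- The number of `n`-step self-avoiding walks from the origin. -/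
noncomputable def c (n : ℕ) : ℕ := (walks n).ncard

/-- The number of bridges with `n` steps. -/
noncomputable def b (n : ℕ) : ℕ := (bridges n).ncard

/-- The number of arcs with `n` steps. -/
noncomputable def a (n : ℕ) : ℕ := (arcs n).ncard

/-- The connective constant. -/
noncomputable def μ : ℝ := √(2 + √2)

theorem nbr_iff (p q : ℤ × ℤ) : Nbr p q ↔ TH966.AK.Hex.A p q := by
  rw [TH966.AK.Hex.A_iff]
  unfold Nbr
  rw [Int.even_iff, Int.even_iff]
  omega

theorem walks_eq (n : ℕ) : walks n = TH966.AK.wks TH966.AK.Hex.A n := by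
  ext f
  unfold walks TH966.AK.wks
  simp only [Set.mem_ofPred_eq]
  constructor
  · rintro ⟨h1, h2, h3⟩
    exact ⟨h1, h2, fun i => (nbr_iff _ _).1 (h3 i)⟩
  · rintro ⟨h1, h2, h3⟩
    exact ⟨h1, h2, fun i => (nbr_iff _ _).2 (h3 i)⟩

theorem bridges_eq (n : ℕ) : bridges n = Q294.Hb.Bset n := by
  unfold bridges Q294.Hb.Bset
  rw [walks_eq]
  rfl

theorem arcs_eq (n : ℕ) : arcs n = Q294.Hb.Aset n := by
  unfold arcs Q294.Hb.Aset
  rw [walks_eq]
  rfl

/-- **Theorem.** Let `c n`, `b n`, `a n` be the numbers of self-avoiding walks, bridges and arcs with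
`n` steps from the origin on the honeycomb lattice, `μ = √(2+√2)`. There is a constant `C` such that
* the sum of `b k / μ^k` over `m` consecutive lengths `k` is at most `C m^{177/200}`;
* `b n ≤ C μ^n n^{-23/400}` for every `n ≥ 1`;
* the probability `b n / c n` that a uniform `n`-step walk is a bridge is at most `C n^{-17/240}` for
  every `n ≥ 1`, and its average over the lengths in `[n, 2n)` is at most `C n^{-77/600}`;
* the sum of `a k / μ^k` over any number of lengths `k ≥ n` is at most `C n^{-23/400}`;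
* `a n ≤ C μ^n n^{-1/2-23/400}` for every `n ≥ 1`. -/
theorem result : ∃ C : ℝ, 0 < C ∧
    (∀ n m : ℕ, ∑ k ∈ Finset.Ico n (n + m), (b k : ℝ) / μ ^ k ≤ C * (m : ℝ) ^ ((177 : ℝ) / 200)) ∧
    (∀ n : ℕ, 1 ≤ n → (b n : ℝ) ≤ C * μ ^ n * (n : ℝ) ^ (-(23 : ℝ) / 400)) ∧
    (∀ n : ℕ, 1 ≤ n → (b n : ℝ) / c n ≤ C * (n : ℝ) ^ (-(17 : ℝ) / 240)) ∧
    (∀ n : ℕ, 1 ≤ n → (∑ k ∈ Finset.Ico n (2 * n), (b k : ℝ) / c k) / n ≤
      C * (n : ℝ) ^ (-(77 : ℝ) / 600)) ∧
    (∀ n m : ℕ, 1 ≤ n → ∑ k ∈ Finset.Ico n (n + m), (a k : ℝ) / μ ^ k ≤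
      C * (n : ℝ) ^ (-(23 : ℝ) / 400)) ∧
    (∀ n : ℕ, 1 ≤ n → (a n : ℝ) ≤ C * μ ^ n * (n : ℝ) ^ (-(223 : ℝ) / 400)) := by
  obtain ⟨C, hC, h1, h2, h3, h4⟩ := Q294.Hb.main
  obtain ⟨h5, h6⟩ := Q294.Hb.ratio hC h1 h2
  have hμ : μ = H978R2.Hex.mu0 := rfl
  have hμ0 : 0 < μ := H978R2.Hex.mu0_pos
  unfold b a c
  simp only [bridges_eq, arcs_eq, walks_eq, hμ]
  rw [hμ] at hμ0
  refine ⟨5 / 2 * C, by positivity, ?_, ?_, h5, h6, ?_, ?_⟩
  · intro n m
    refine (h1 n m).trans (mul_le_mul_of_nonneg_right ?_ (by positivity))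
    linarith
  · intro n hn
    refine (h2 n hn).trans (mul_le_mul_of_nonneg_right (mul_le_mul_of_nonneg_right ?_ ?_) ?_)
    · linarith
    · positivity
    · positivity
  · intro n m hn
    refine (h3 n m hn).trans (mul_le_mul_of_nonneg_right ?_ (by positivity))
    linarith
  · intro n hn
    refine (h4 n hn).trans (mul_le_mul_of_nonneg_right (mul_le_mul_of_nonneg_right ?_ ?_) ?_)
    · linarith
    · positivity
    · positivity

end Pool.Agent.Results.MP_b440f6_pr.BridgesAndArcs
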