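import Pool.Agent.Q294.Hp5

/-!
The probability that a self-avoiding walk on the honeycomb lattice stays in a half-plane is
polynomially small.
-/

set_option autoImplicit false

namespace Pool.Agent.Results.MP_b440f6_pr.HalfPlaneProbability

open Filter Topology

/-- Adjacency in the honeycomb lattice (brick-wall model), as in the frozen statement. -/
def Nbr (p q : ℤ × ℤ) : Prop :=
  (p.2 = q.2 ∧ (p.1 - q.1 = 1 ∨ q.1 - p.1 = 1)) ∨
    (p.1 = q.1 ∧ ((q.2 = p.2 + 1 ∧ Even (p.1 + p.2)) ∨ (p.2 = q.2 + 1 ∧ Even (q.1 + q.2))))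

/-- The set of `n`-step self-avoiding walks from the origin. -/
def walks (n : ℕ) : Set (Fin (n + 1) → ℤ × ℤ) :=
  {ω | ω 0 = (0, 0) ∧ Function.Injective ω ∧ ∀ i : Fin n, Nbr (ω i.castSucc) (ω i.succ)}

/-- The level of a vertex. In the regular honeycomb lattice, the level is an increasing function of
the coordinate in the direction of the edge from `(0, 0)` to `(1, 0)`, equal to `0` at the origin. -/
def level (p : ℤ × ℤ) : ℤ := p.1 - p.2

/-- The walks which stay in one of the two closed half-planes bounded by the line through the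
origin perpendicular to the edge from `(0, 0)` to `(1, 0)`. -/
def halfPlane (n : ℕ) : Set (Fin (n + 1) → ℤ × ℤ) :=
  {ω ∈ walks n | (∀ i, 0 ≤ level (ω i)) ∨ ∀ i, level (ω i) ≤ 0}

/-- The number of `n`-step self-avoiding walks from the origin. -/
noncomputable def c (n : ℕ) : ℕ := (walks n).ncard

/-- The number of `n`-step self-avoiding walks which stay in one of the two half-planes. -/
noncomputable def h (n : ℕ) : ℕ := (halfPlane n).ncard

/-- The connective constant. -/
noncomputable def μ : ℝ := √(2 + √2)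

theorem nbr_iff (p q : ℤ × ℤ) : Nbr p q ↔ TH966.AK.Hex.A p q := by
  rw [TH966.AK.Hex.A_iff]
  unfold Nbr
  rw [Int.even_iff, Int.even_iff]
  omega

theorem walks_eq (n : ℕ) : walks n = TH966.AK.wks TH966.AK.Hex.A n := by
  ext f
  unfold walks TH966.AK.wks
  simp only [Set.mem_ofPred_eq]
  constructor
  · rintro ⟨h1, h2, h3⟩
    exact ⟨h1, h2, fun i => (nbr_iff _ _).1 (h3 i)⟩
  · rintro ⟨h1, h2, h3⟩
    exact ⟨h1, h2, fun i => (nbr_iff _ _).2 (h3 i)⟩

theorem c_eq (n : ℕ) : c n = Q294.Hc.cn n := by
  unfold c Q294.Hc.cn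
  rw [walks_eq, TH966.AK.card_wks TH966.AK.Hex.rule]

theorem h_eq (n : ℕ) : h n = (Q294.Hc.Half n).card := by
  classical
  unfold h halfPlane
  rw [walks_eq, ← Set.ncard_coe_finset, ← Set.ncard_image_of_injective _ List.ofFn_injective]
  congr 1
  ext w
  unfold Q294.Hc.Half
  rw [Finset.mem_coe, Finset.mem_filter, ← Finset.mem_coe,
    ← TH966.AK.image_wks TH966.AK.Hex.rule n, Set.mem_image, Set.mem_image]
  constructor
  · rintro ⟨f, ⟨hf, hh⟩, rfl⟩
    refine ⟨⟨f, hf, rfl⟩, ?_⟩
    rcases hh with hh | hh
    · left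
      intro v hv
      rw [List.mem_ofFn] at hv
      obtain ⟨i, rfl⟩ := hv
      exact hh i
    · right
      intro v hv
      rw [List.mem_ofFn] at hv
      obtain ⟨i, rfl⟩ := hv
      exact hh i
  · rintro ⟨⟨f, hf, rfl⟩, hh⟩
    refine ⟨f, ⟨hf, ?_⟩, rfl⟩
    rcases hh with hh | hh
    · left
      intro i
      exact hh (f i) (by rw [List.mem_ofFn]; exact ⟨i, rfl⟩)
    · right
      intro i
      exact hh (f i) (by rw [List.mem_ofFn]; exact ⟨i, rfl⟩)

theorem mu_pos : 0 < μ := H978R2.Hex.mu0_pos

/-- **Theorem.** Let `c n` be the number of `n`-step self-avoiding walks on the honeycomb lattice,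
`h n` the number of those which stay in one of the two half-planes, `μ = √(2+√2)`.
(1) For every `0 ≤ z < 1/μ`, under the law which gives a walk with `n` steps the probability
proportional to `z^n`, the walk stays in one of the two half-planes with probability at most
`50000 (1 - μ z)^{77/1200}`.
(2) For every `δ < 77/1200` there are infinitely many `n` such that the uniform `n`-step walk stays
in one of the half-planes with probability at most `n^{-δ}`.
(3) If `log (h n / c n) / log n` converges, the limit is at most `-77/1200`. -/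
theorem result :
    (∀ z : ℝ, 0 ≤ z → μ * z < 1 → (Summable fun n => (c n : ℝ) * z ^ n) ∧
      ∑' n, (h n : ℝ) * z ^ n ≤
        50000 * (1 - μ * z) ^ ((77 : ℝ) / 1200) * ∑' n, (c n : ℝ) * z ^ n) ∧
    (∀ δ : ℝ, δ < 77 / 1200 → ∃ᶠ n : ℕ in atTop, (h n : ℝ) / c n ≤ (n : ℝ) ^ (-δ)) ∧
    (∀ L : ℝ, Tendsto (fun n : ℕ => Real.log ((h n : ℝ) / c n) / Real.log n) atTop (𝓝 L) →
      L ≤ -(77 / 1200)) := by
  have hfreq : ∀ δ : ℝ, δ < 77 / 1200 →
      ∃ᶠ n : ℕ in atTop, (h n : ℝ) / c n ≤ (n : ℝ) ^ (-δ) := by
    intro δ hδ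
    simp only [c_eq, h_eq]
    exact Q294.Hc.freq hδ
  refine ⟨?_, hfreq, ?_⟩
  · intro z h0 h1
    have hz0 : 0 ≤ μ * z := mul_nonneg mu_pos.le h0
    have e1 : ∀ n, Q294.Hc.nc n * (μ * z) ^ n = (c n : ℝ) * z ^ n := by
      intro n
      have h2 : (H978R2.Hex.mu0 : ℝ) ^ n ≠ 0 := pow_ne_zero _ H978R2.Hex.mu0_pos.ne'
      have h3 : μ = H978R2.Hex.mu0 := rfl
      unfold Q294.Hc.nc
      rw [c_eq, mul_pow, h3]
      field_simp
    have e2 : ∀ n, Q294.Hc.nv n * (μ * z) ^ n = (h n : ℝ) * z ^ n := by
      intro n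
      have h2 : (H978R2.Hex.mu0 : ℝ) ^ n ≠ 0 := pow_ne_zero _ H978R2.Hex.mu0_pos.ne'
      have h3 : μ = H978R2.Hex.mu0 := rfl
      unfold Q294.Hc.nv
      rw [h_eq, mul_pow, h3]
      field_simp
    have h2 := Q294.Hc.V_le hz0 h1
    simp only [e1, e2] at h2
    exact ⟨(Q294.Hc.dat.sum _ hz0 h1).congr fun n => e1 n, h2⟩
  · intro L hL
    by_contra hcon
    rw [not_le] at hcon
    obtain ⟨δ, hδ1, hδ2⟩ := exists_between (show -L < 77 / 1200 by linarith)
    have h1 := hL.eventually (lt_mem_nhds (show -δ < L by linarith))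
    have h2 := (h1.and (eventually_ge_atTop 2)).and_frequently (hfreq δ hδ2)
    obtain ⟨n, ⟨h3, h4⟩, h5⟩ := h2.exists
    have hn : (1 : ℝ) < n := by exact_mod_cast h4
    have hlog : 0 < Real.log n := Real.log_pos hn
    rw [lt_div_iff₀ hlog] at h3
    have h6 : 0 < (n : ℝ) ^ (-δ) := by positivity
    by_cases h7 : (h n : ℝ) / c n = 0
    · rw [h7, Real.log_zero] at h3
      -- `h n` is positive
      have hpos : 0 < (h n : ℝ) / c n := by
        have h8 : (0 : ℝ) < c n := by
          have := Q294.Hc.dat.one n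
          unfold Q294.Hc.nc at this
          rw [← c_eq] at this
          rcases Nat.eq_zero_or_pos (c n) with h9 | h9
          · rw [h9] at this
            norm_num at this
          · exact_mod_cast h9
        have h9 : (0 : ℝ) < h n := by
          have h10 : (halfPlane n).Nonempty := by
            refine ⟨fun i => ((i : ℤ), 0), ⟨?_, ?_, ?_⟩, ?_⟩
            · simp
            · intro i j hij
              simp only [Prod.mk.injEq, Nat.cast_inj] at hij
              exact Fin.ext hij.1
            · intro i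
              left
              simp
            · left
              intro i
              unfold level
              simp
          have h11 : (halfPlane n).Finite := by
            refine Set.Finite.subset ?_ (Set.sep_subset _ _)
            rw [walks_eq]
            have h12 : (List.ofFn '' TH966.AK.wks TH966.AK.Hex.A n).Finite := by
              rw [TH966.AK.image_wks TH966.AK.Hex.rule n]
              exact Finset.finite_toSet _
            exact h12.of_finite_image (List.ofFn_injective.injOn)
          have h13 : 0 < h n := (Set.ncard_pos h11).2 h10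
          exact_mod_cast h13
        positivity
      exact absurd h7 hpos.ne'
    · have h8 : 0 < (h n : ℝ) / c n := lt_of_le_of_ne (by positivity) (Ne.symm h7)
      have h9 := Real.log_le_log h8 h5
      rw [Real.log_rpow (by linarith)] at h9
      linarith

end Pool.Agent.Results.MP_b440f6_pr.HalfPlaneProbability
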