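import Pool.Agent.Q294.CloseHex

/-!
Self-avoiding walk on the honeycomb lattice: the probability that the two ends are neighbours.
Averaged over a window of `L` consecutive lengths of order `n` it is at most `K (log n)² / L`, and
at every scale `n` there is an odd length `N ∈ [n, 2n]` at which it is at most `K (log n)⁴ / n`; so
the closing exponent is at least one.
-/

set_option autoImplicit false

namespace Pool.Agent.Results.MP_b440f6_pr.HoneycombClosing

/-- Adjacency in the honeycomb lattice (brick-wall model), as in the frozen statement. -/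
def Nbr (p q : ℤ × ℤ) : Prop :=
  (p.2 = q.2 ∧ (p.1 - q.1 = 1 ∨ q.1 - p.1 = 1)) ∨
    (p.1 = q.1 ∧ ((q.2 = p.2 + 1 ∧ Even (p.1 + p.2)) ∨ (p.2 = q.2 + 1 ∧ Even (q.1 + q.2))))

/-- The set of `n`-step self-avoiding walks from the origin. -/
def walks (n : ℕ) : Set (Fin (n + 1) → ℤ × ℤ) :=
  {ω | ω 0 = (0, 0) ∧ Function.Injective ω ∧ ∀ i : Fin n, Nbr (ω i.castSucc) (ω i.succ)}

/-- `c_n`: the number of `n`-step self-avoiding walks from the origin -/
noncomputable def c (n : ℕ) : ℕ := (walks n).ncard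

/-- the number of those that close, that is, whose end point is a neighbour of the origin; for
`n ≥ 3` this is the number of rooted oriented self-avoiding polygons with `n + 1` edges -/
noncomputable def closing (n : ℕ) : ℕ :=
  {ω : Fin (n + 1) → ℤ × ℤ | ω ∈ walks n ∧ Nbr (ω (Fin.last n)) (0, 0)}.ncard

/-- the closing probability -/
noncomputable def P (n : ℕ) : ℝ := (closing n : ℝ) / c n

open Q294.CloseG Q294.CloseHex in
/-- **Theorem.** Let `μ = √(2+√2)` be the connective constant of the honeycomb lattice.  There is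
`K` such that:
(1) for `n ≥ 2`, `L ≥ 1` and `n + L ≤ a`, `b + L ≤ 4 n`, the sum of `closing_N μ^(-N)` over
`a ≤ N ≤ b` is at most `K (log n)² / L` times the sum of `c_N μ^(-N)` over `a - L ≤ N ≤ b + L`;
(2) for every `n ≥ 2` there is an odd `N` with `n ≤ N ≤ 2n` at which the closing probability is at
most `K (log n)⁴ / n`. -/
theorem result : ∃ K : ℝ,
    (∀ n L a b : ℕ, 2 ≤ n → 1 ≤ L → n + L ≤ a → b + L ≤ 4 * n →
      ∑ N ∈ Finset.Icc a b, (closing N : ℝ) / Real.sqrt (2 + Real.sqrt 2) ^ N ≤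
        K * (Real.log n ^ 2 / L) *
          ∑ N ∈ Finset.Icc (a - L) (b + L), (c N : ℝ) / Real.sqrt (2 + Real.sqrt 2) ^ N) ∧
    (∀ n : ℕ, 2 ≤ n → ∃ N : ℕ, n ≤ N ∧ N ≤ 2 * n ∧ Odd N ∧
      P N ≤ K * (Real.log n ^ 4 / n)) := by
  obtain ⟨K1, hK1, h1⟩ := hex_window
  obtain ⟨K2, hK2, h2⟩ := hex_good
  have hc : ∀ n, c n = Q294.CloseG.c hex n := fun n => (c_hex n).symm
  have hκ : ∀ n, closing n = Q294.CloseG.κ hex n := fun n => (κ_hex n).symm
  have hmu0 : 0 < mu := lt_of_lt_of_le one_pos one_le_mu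
  have hpos : ∀ n, (0:ℝ) < c n := fun n => by
    rw [hc]
    exact lt_of_lt_of_le (pow_pos hmu0 n) (low_all n)
  refine ⟨K1 + K2, ?_, ?_⟩
  · intro n L a b hn hL ha hb
    have h := h1 n a b L hn hL ha hb
    simp only [hc, hκ]
    refine h.trans (mul_le_mul_of_nonneg_right ?_ (Sw_nonneg hmu0 _))
    apply mul_le_mul_of_nonneg_right _ (by positivity)
    linarith
  · intro n hn
    obtain ⟨N, a1, a2, a3, a4⟩ := h2 n hn
    refine ⟨N, a1, a2, a3, ?_⟩
    unfold P
    rw [div_le_iff₀ (hpos N), hc, hκ]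
    refine a4.trans (mul_le_mul_of_nonneg_right ?_ (by positivity))
    exact mul_le_mul_of_nonneg_right (by linarith) (by positivity)

end Pool.Agent.Results.MP_b440f6_pr.HoneycombClosing
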