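import Pool.Agent.Q78.UW.Expo3
import Pool.Agent.Q294.Av6

set_option autoImplicit false

/-!
# Honeycomb self-avoiding walks in a random domain: numbers and sizes at all lengths from a sparse
set of lengths
-/

namespace Pool.Agent.Results.MP_b440f6_pr.SizeExponentsInDomains

open MeasureTheory Filter Topology

/-- The sites of the honeycomb lattice with unit edges (brick-wall coordinates):
`(√3/2) x + i (3 y - r) / 2`, where `r ∈ {0, 1}` is the parity of `x + y`. -/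
noncomputable def pos (p : ℤ × ℤ) : ℂ :=
  ⟨√3 / 2 * p.1, (3 * p.2 - ((p.1 + p.2) % 2 : ℤ)) / 2⟩

/-- `w` is an `n`-step self-avoiding walk from the origin: the sites are pairwise distinct and
consecutive sites have Euclidean distance `1`. -/
def IsSAW (n : ℕ) (w : Fin (n + 1) → ℤ × ℤ) : Prop :=
  w 0 = 0 ∧ Function.Injective w ∧ ∀ i : Fin n, ‖pos (w i.succ) - pos (w i.castSucc)‖ = 1

/-- the three sizes of an `n`-step walk: `R_e²`, `R_g²`, `R_m²` -/
noncomputable def size (n : ℕ) (w : Fin (n + 1) → ℤ × ℤ) : Fin 3 → ℝ :=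
  ![‖pos (w (Fin.last n))‖ ^ 2,
    1 / (2 * ((n : ℝ) + 1) ^ 2) * ∑ i, ∑ j, ‖pos (w i) - pos (w j)‖ ^ 2,
    1 / (2 * ((n : ℝ) + 1)) *
      ∑ i, (‖pos (w i)‖ ^ 2 + ‖pos (w i) - pos (w (Fin.last n))‖ ^ 2)]

/-- the connective constant -/
noncomputable def μ : ℝ := Real.sqrt (2 + Real.sqrt 2)

variable {Ω : Type} [MeasurableSpace Ω]

/-- the walk `w` is in the domain `R ω`: all its vertices `x` satisfy `R ω e x`, where `e` is the
end point of the walk -/
def InDom (R : Ω → ℤ × ℤ → ℤ × ℤ → Prop) (ω : Ω) (n : ℕ) (w : Fin (n + 1) → ℤ × ℤ) : Prop :=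
  IsSAW n w ∧ ∀ i, R ω (w (Fin.last n)) (w i)

/-- the mean number of `n`-step walks in a random domain with law `ν` -/
noncomputable def F (ν : Measure Ω) (R : Ω → ℤ × ℤ → ℤ × ℤ → Prop) (n : ℕ) : ℝ :=
  ∫ ω, (Nat.card {w : Fin (n + 1) → ℤ × ℤ // InDom R ω n w} : ℝ) ∂ν

/-- the mean of the sum of `R_e ^ (2 q₀) R_g ^ (2 q₁) R_m ^ (2 q₂)` over these walks -/
noncomputable def J (ν : Measure Ω) (R : Ω → ℤ × ℤ → ℤ × ℤ → Prop) (q : Fin 3 → ℝ) (n : ℕ) : ℝ :=
  ∫ ω, (∑ᶠ w : {w : Fin (n + 1) → ℤ × ℤ // InDom R ω n w}, ∏ i, size n w.1 i ^ q i) ∂ν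

/-- random domains -/
def IsDomain (R : Ω → ℤ × ℤ → ℤ × ℤ → Prop) : Prop := ∀ e x, MeasurableSet {ω | R ω e x}

/-- slowly varying logarithms of normalisations, such as `β log n + a` -/
def IsSlow (ψ : ℕ → ℝ) : Prop :=
  ∃ B : ℝ, ∀ m n : ℕ, 1 ≤ m → m ≤ n → |ψ n - ψ m| ≤ B * (((n : ℝ) - m) / m)

/-- `S` meets `[n, n + δ √(n E n)]` for all large `n` -/
def Meets (S : Set ℕ) (δ : ℝ) (E : ℕ → ℝ) : Prop :=
  ∀ᶠ n : ℕ in atTop, ∃ k ∈ S, n ≤ k ∧ (k : ℝ) ≤ n + δ * √(n * E n)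

open TH966.AK Q68.PL Q294.Av

/-- the normalising constants -/
noncomputable def cs (n : ℕ) : Fin 3 → ℝ := ![1, 1 / (2 * ((n : ℝ) + 1) ^ 2), 1 / (2 * ((n : ℝ) + 1))]

/-- the weights -/
noncomputable def wts (pos : ℤ × ℤ → ℂ) : Fin 3 → List (ℤ × ℤ) → ℝ := ![wE pos, wG pos, wM pos]

theorem cs_pos (n : ℕ) (i : Fin 3) : 0 < cs n i := by
  fin_cases i <;> simp [cs] <;> positivity

theorem pos_zero : pos 0 = 0 := Q294.Av.pos_H.zero

theorem size_eq (n : ℕ) (w : Fin (n + 1) → ℤ × ℤ) (i : Fin 3) :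
    size n w i = cs n i * wts pos i (List.ofFn w) := by
  fin_cases i
  · exact valE n w pos_zero
  · exact valG n w
  · exact valM n w pos_zero

theorem size_nonneg (n : ℕ) (w : Fin (n + 1) → ℤ × ℤ) (i : Fin 3) : 0 ≤ size n w i := by
  fin_cases i
  · show 0 ≤ ‖pos (w (Fin.last n))‖ ^ 2
    positivity
  · show 0 ≤ 1 / (2 * ((n : ℝ) + 1) ^ 2) * ∑ i, ∑ j, ‖pos (w i) - pos (w j)‖ ^ 2
    positivity
  · show 0 ≤ 1 / (2 * ((n : ℝ) + 1)) *
      ∑ i, (‖pos (w i)‖ ^ 2 + ‖pos (w i) - pos (w (Fin.last n))‖ ^ 2)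
    positivity

theorem wts_nonneg (n : ℕ) (w : Fin (n + 1) → ℤ × ℤ) (i : Fin 3) :
    0 ≤ wts pos i (List.ofFn w) := by
  have h1 := size_nonneg n w i
  rw [size_eq] at h1
  exact (mul_nonneg_iff_of_pos_left (cs_pos n i)).1 h1

/-- the constant of a joint moment -/
noncomputable def cq (q : Fin 3 → ℝ) (n : ℕ) : ℝ := ∏ i, cs n i ^ q i

theorem cq_pos (q : Fin 3 → ℝ) (n : ℕ) : 0 < cq q n :=
  Finset.prod_pos fun i _ => Real.rpow_pos_of_pos (cs_pos n i) _

theorem log_cq (q : Fin 3 → ℝ) (n : ℕ) : Real.log (cq q n) =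
    -((2 * q 1 + q 2) * Real.log ((n : ℝ) + 1)) - (q 1 + q 2) * Real.log 2 := by
  unfold cq
  rw [Fin.prod_univ_three]
  have c0 : cs n 0 = 1 := rfl
  have c1 : cs n 1 = 1 / (2 * ((n : ℝ) + 1) ^ 2) := rfl
  have c2 : cs n 2 = 1 / (2 * ((n : ℝ) + 1)) := rfl
  have hn : (0 : ℝ) < (n : ℝ) + 1 := by positivity
  rw [c0, Real.one_rpow, one_mul,
    Real.log_mul (Real.rpow_pos_of_pos (cs_pos n 1) _).ne' (Real.rpow_pos_of_pos (cs_pos n 2) _).ne',
    Real.log_rpow (cs_pos n 1), Real.log_rpow (cs_pos n 2), c1, c2, one_div, one_div, Real.log_inv,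
    Real.log_inv, Real.log_mul (by norm_num) (by positivity), Real.log_mul (by norm_num) hn.ne',
    Real.log_pow]
  push_cast
  ring

theorem prod_eq (q : Fin 3 → ℝ) (n : ℕ) (w : Fin (n + 1) → ℤ × ℤ) :
    ∏ i, size n w i ^ q i = cq q n * ∏ i, wts pos i (List.ofFn w) ^ q i := by
  unfold cq
  rw [← Finset.prod_mul_distrib]
  refine Finset.prod_congr rfl fun i _ => ?_
  rw [size_eq, Real.mul_rpow (cs_pos n i).le (wts_nonneg n w i)]

/-- the constants at two lengths -/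
theorem cq_ratio (m : ℕ) (q : Fin 3 → ℝ) (hq0 : ∀ i, 0 ≤ q i) (hq : ∀ i, q i ≤ m) (n s : ℕ) :
    |cq q (n + s) / cq q n - 1| ≤ (3 * m + 1) * (s / (n + s + 1)) := by
  obtain ⟨t, ht⟩ : ∃ t : ℝ, t = ((n : ℝ) + 1) / (n + s + 1) := ⟨_, rfl⟩
  have hn : (0 : ℝ) ≤ n := Nat.cast_nonneg _
  have hsn : (0 : ℝ) ≤ s := Nat.cast_nonneg _
  have ht0 : 0 < t := by rw [ht]; positivity
  have ht1 : t ≤ 1 := by rw [ht, div_le_one (by positivity)]; linarith
  have e : cq q (n + s) / cq q n = t ^ (2 * q 1 + q 2) := by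
    have h1 : 0 < cq q (n + s) / cq q n := div_pos (cq_pos _ _) (cq_pos _ _)
    have h2 : 0 < t ^ (2 * q 1 + q 2) := Real.rpow_pos_of_pos ht0 _
    rw [← Real.exp_log h1, ← Real.exp_log h2, Real.log_div (cq_pos _ _).ne' (cq_pos _ _).ne',
      log_cq, log_cq, Real.log_rpow ht0, ht, Real.log_div (by positivity) (by positivity)]
    push_cast
    congr 1
    ring
  rw [e]
  have h1 := Q78.UW.rpow_near (3 * m) 0 le_rfl (2 * q 1 + q 2) t
    (by linarith [hq0 1, hq0 2]) (by push_cast; linarith [hq 1, hq 2]) ht0.le (by linarith)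
  rw [add_zero, one_pow, mul_one] at h1
  refine h1.trans (le_of_eq ?_)
  have h2 : |t - 1| = s / (n + s + 1) := by
    rw [abs_of_nonpos (by linarith), ht]
    field_simp
    ring
  rw [h2]
  push_cast
  ring

/-- the constants vary slowly -/
theorem slow_cq (q : Fin 3 → ℝ) (s : ℕ) : Q78.Z3.Slow (fun k => Real.log (cq q (2 * k + s))) := by
  refine ⟨|2 * q 1 + q 2|, fun m n hm hmn => ?_⟩
  have hm0 : (0 : ℝ) < m := by exact_mod_cast (show 0 < m by omega)
  have hmn' : (m : ℝ) ≤ n := by exact_mod_cast hmn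
  have hs : (0 : ℝ) ≤ s := Nat.cast_nonneg _
  have h1 : Real.log (cq q (2 * n + s)) - Real.log (cq q (2 * m + s)) =
      -((2 * q 1 + q 2) * Real.log ((2 * n + s + 1) / (2 * m + s + 1) : ℝ)) := by
    rw [log_cq, log_cq, Real.log_div (by positivity) (by positivity)]
    push_cast
    ring
  rw [h1, abs_neg, abs_mul]
  refine mul_le_mul_of_nonneg_left ?_ (abs_nonneg _)
  have h2 : (1 : ℝ) ≤ (2 * n + s + 1) / (2 * m + s + 1) := by
    rw [one_le_div (by positivity)]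
    linarith
  rw [abs_of_nonneg (Real.log_nonneg h2)]
  refine (Real.log_le_sub_one_of_pos (by linarith)).trans ?_
  rw [div_sub_one (by positivity), div_le_div_iff₀ (by positivity) hm0]
  nlinarith [mul_nonneg (show (0 : ℝ) ≤ (n : ℝ) - m by linarith) hs]

/-- the exponent of the constants -/
theorem lim_cq (q : Fin 3 → ℝ) (s : ℕ) : Tendsto
    (fun k : ℕ => Real.log (cq q (2 * k + s)) / Real.log k) atTop (𝓝 (-(2 * q 1 + q 2))) := by
  have tlog : Tendsto (fun n : ℕ => Real.log (n : ℝ)) atTop atTop :=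
    Real.tendsto_log_atTop.comp tendsto_natCast_atTop_atTop
  have hs : (0 : ℝ) ≤ s := Nat.cast_nonneg _
  obtain ⟨M, hM⟩ : ∃ M : ℝ, M = |2 * q 1 + q 2| * Real.log (3 + s) + |(q 1 + q 2) * Real.log 2| :=
    ⟨_, rfl⟩
  have h1 : Tendsto (fun k : ℕ => M / Real.log (k : ℝ)) atTop (𝓝 0) :=
    tlog.const_div_atTop M
  have h2 : Tendsto (fun k : ℕ => Real.log (cq q (2 * k + s)) / Real.log k + (2 * q 1 + q 2)) atTop
      (𝓝 0) := by
    refine squeeze_zero_norm' ?_ h1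
    filter_upwards [tlog.eventually_gt_atTop 0, eventually_ge_atTop 1] with k hk hk1
    have hk0 : (0 : ℝ) < k := by exact_mod_cast (show 0 < k by omega)
    have hk1' : (1 : ℝ) ≤ k := by exact_mod_cast hk1
    have e : Real.log (cq q (2 * k + s)) / Real.log k + (2 * q 1 + q 2) =
        (-((2 * q 1 + q 2) * Real.log ((2 * k + s + 1) / k : ℝ)) -
          (q 1 + q 2) * Real.log 2) / Real.log k := by
      rw [log_cq, Real.log_div (by positivity) hk0.ne']
      push_cast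
      field_simp
      ring
    rw [e, Real.norm_eq_abs, abs_div, abs_of_pos hk]
    refine div_le_div_of_nonneg_right ?_ hk.le
    refine (abs_sub _ _).trans ?_
    rw [hM, abs_neg, abs_mul (2 * q 1 + q 2)]
    have h3 : (1 : ℝ) ≤ (2 * k + s + 1) / k := by
      rw [one_le_div hk0]
      linarith
    have h4 : Real.log ((2 * k + s + 1) / k : ℝ) ≤ Real.log (3 + s) := by
      refine Real.log_le_log (by linarith) ?_
      rw [div_le_iff₀ hk0]
      nlinarith [mul_nonneg hs (show (0 : ℝ) ≤ (k : ℝ) - 1 by linarith)]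
    rw [abs_of_nonneg (Real.log_nonneg h3)]
    have := mul_le_mul_of_nonneg_left h4 (abs_nonneg (2 * q 1 + q 2))
    linarith
  have h3 := h2.sub_const (2 * q 1 + q 2)
  rw [zero_sub] at h3
  refine h3.congr fun k => ?_
  ring

/-- **Main result.** -/
theorem result : (∀ β a : ℝ, IsSlow (fun n => β * Real.log n + a)) ∧
    ∀ m : ℕ, ∃ C : ℝ, 0 < C ∧ ∀ (Ω : Type) [MeasurableSpace Ω] (ν : Measure Ω)
      [IsProbabilityMeasure ν] (R : Ω → ℤ × ℤ → ℤ × ℤ → Prop), IsDomain R →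
      ∀ (s : ℕ) (S : Set ℕ) (q : Fin 3 → ℝ), (∀ i, 0 ≤ q i) → (∀ i, q i ≤ m) →
      -- exponents
      (∀ β β' : ℝ, (∀ δ : ℝ, 0 < δ → Meets S δ (fun n => Real.log n)) →
        (∀ᶠ k : ℕ in atTop, k ∈ S → 0 < F ν R (2 * k + s)) →
        Tendsto (fun k : ℕ => Real.log (F ν R (2 * k + s) / μ ^ (2 * k + s)) / Real.log k)
          (atTop ⊓ 𝓟 S) (𝓝 β) →
        Tendsto (fun k : ℕ => Real.log (J ν R q (2 * k + s) / F ν R (2 * k + s)) / Real.log k)
          (atTop ⊓ 𝓟 S) (𝓝 β') →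
        Tendsto (fun k : ℕ => Real.log (F ν R (2 * k + s) / μ ^ (2 * k + s)) / Real.log k)
          atTop (𝓝 β) ∧
        Tendsto (fun k : ℕ => Real.log (J ν R q (2 * k + s) / F ν R (2 * k + s)) / Real.log k)
          atTop (𝓝 β')) ∧
      -- asymptotic forms
      (∀ ψ φ : ℕ → ℝ, IsSlow ψ → IsSlow φ → (∀ δ : ℝ, 0 < δ → Meets S δ (fun _ => 1)) →
        Tendsto (fun k : ℕ => F ν R (2 * k + s) / μ ^ (2 * k + s) / Real.exp (ψ k))
          (atTop ⊓ 𝓟 S) (𝓝 1) →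
        Tendsto (fun k : ℕ => J ν R q (2 * k + s) / F ν R (2 * k + s) / Real.exp (φ k))
          (atTop ⊓ 𝓟 S) (𝓝 1) →
        Tendsto (fun k : ℕ => F ν R (2 * k + s) / μ ^ (2 * k + s) / Real.exp (ψ k))
          atTop (𝓝 1) ∧
        Tendsto (fun k : ℕ => J ν R q (2 * k + s) / F ν R (2 * k + s) / Real.exp (φ k))
          atTop (𝓝 1)) ∧
      -- rates
      (∀ τ δ : ℝ, 0 < τ → 0 < δ → Meets S δ (fun n => 1 + Real.log n) →
        (∀ᶠ k : ℕ in atTop, k ∈ S → 0 < F ν R (2 * k + s) ∧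
          |Real.log (F ν R (2 * k + s) / μ ^ (2 * k + s))| ≤ τ * (1 + Real.log k)) →
        ∀ᶠ k : ℕ in atTop, ∀ n : ℕ, n = 2 * k + s →
          |F ν R (n + 2) / (μ ^ 2 * F ν R n) - 1| ≤
            C * √((1 + τ + δ ^ 2) * (1 + Real.log k) / k) ∧
          0 < J ν R q n / F ν R n ∧
          |(J ν R q (n + 2) / F ν R (n + 2)) / (J ν R q n / F ν R n) - 1| ≤
            C * √((1 + τ + δ ^ 2) * (1 + Real.log k) / k) ∧
          ∀ R' : Ω → ℤ × ℤ → ℤ × ℤ → Prop, IsDomain R' → (∀ ω e x, R' ω e x → R ω e x) →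
            |J ν R' q (n + 2) / J ν R q (n + 2) - J ν R' q n / J ν R q n| ≤
              C * √((1 + τ + δ ^ 2) * (1 + Real.log k) / k)) := by
  refine ⟨fun β a => Q78.Z3.slow_log β a, fun m => ?_⟩
  obtain ⟨-, K, G⟩ := TH966.AK.hex_growth _ (fun n => rfl)
  have hs2 : Hex.rule.s = 2 := rfl
  have hP : Pos Hex.rule 30 pos := Q294.Av.pos_H
  have hA' : Hex.A = fun x y => ‖pos y - pos x‖ = 1 := by
    funext x y
    exact propext (Q294.Av.adjH x y)
  have hF : ∀ {Ω : Type} [MeasurableSpace Ω] (ν : Measure Ω) (R : Ω → ℤ × ℤ → ℤ × ℤ → Prop)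
      (n : ℕ), F ν R n = Q78.UR.FF Hex.A ν R n := by
    intro Ω _ ν R n
    unfold F Q78.UR.FF
    congr 1
    funext ω
    rw [Q78.UR.card_KR_fun Hex.rule, hA']
    rfl
  have hsum : ∀ {Ω : Type} [MeasurableSpace Ω] (ν : Measure Ω) (R : Ω → ℤ × ℤ → ℤ × ℤ → Prop)
      (n : ℕ) (f : Ω → (Fin (n + 1) → ℤ × ℤ) → ℝ) (H : Ω → List (ℤ × ℤ) → ℝ),
      (∀ ω w, f ω w = H ω (List.ofFn w)) →
      ∫ ω, (∑ᶠ w : {w : Fin (n + 1) → ℤ × ℤ // InDom R ω n w}, f ω w.1) ∂ν =
        Q78.UW.XX Hex.A ν R H n := by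
    intro Ω _ ν R n f H hf
    unfold Q78.UW.XX
    congr 1
    funext ω
    rw [← Q78.UW.sum_fun Hex.rule (R ω) n (f ω) (H ω) (hf ω), hA']
    rfl
  have hJ : ∀ {Ω : Type} [MeasurableSpace Ω] (ν : Measure Ω) (R : Ω → ℤ × ℤ → ℤ × ℤ → Prop)
      (q : Fin 3 → ℝ) (n : ℕ), J ν R q n =
        cq q n * Q78.UW.XX Hex.A ν R (fun _ w => ∏ i, wts pos i w ^ q i) n := by
    intro Ω _ ν R q n
    unfold J
    rw [hsum ν R n (fun _ w => ∏ i, size n w i ^ q i)
      (fun _ w => cq q n * ∏ i, wts pos i w ^ q i) (fun _ w => prod_eq q n w)]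
    unfold Q78.UW.XX Q78.UW.WR
    simp only [← Finset.mul_sum]
    rw [integral_const_mul]
  have hM : ∀ {Ω : Type} [MeasurableSpace Ω] (ν : Measure Ω) (R : Ω → ℤ × ℤ → ℤ × ℤ → Prop)
      (q : Fin 3 → ℝ) (n : ℕ), J ν R q n / F ν R n =
        cq q n * Q78.UW.mw Hex.A ν R (fun w => ∏ i, wts pos i w ^ q i) n := by
    intro Ω _ ν R q n
    rw [hJ, hF]
    unfold Q78.UW.mw
    rw [mul_div_assoc]
  obtain ⟨κG, hκG, hG⟩ := fw_G G.hs hP
  obtain ⟨κM, hκM, hM'⟩ := fw_M G.hs hP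
  have hκ0 : 0 ≤ max κG κM := hκG.trans (le_max_left _ _)
  have hfw : ∀ i, Fw Hex.rule (max κG κM) 8 (wts pos i) := by
    have mono : ∀ {κ κ' : ℝ} {f : List (ℤ × ℤ) → ℝ}, Fw Hex.rule κ 8 f → κ ≤ κ' →
        Fw Hex.rule κ' 8 f :=
      fun h hk => ⟨⟨h.aw.1, fun n w hn hw => (h.aw.2 n w hn hw).trans
        (mul_le_mul_of_nonneg_right hk (h.aw.1 _ w hw))⟩, h.ge, h.le⟩
    intro i
    fin_cases i
    · exact fw_E hP _ hκ0
    · exact mono hG (le_max_left _ _)
    · exact mono hM' (le_max_right _ _)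
  obtain ⟨κp, hκp, hprod⟩ := Q78.UW.fr_prod (Z := Hex.rule)
    ((m + 1) * (1 + max κG κM) ^ m * max κG κM) (by positivity) (8 * m) G.hs 3
  obtain ⟨C, hC, h⟩ := Q78.UW.Ex.cond G (le_of_eq hs2) (8 * m * 3) κp hκp
  refine ⟨C + 2 * (2 * (3 * m + 1)), by positivity, ?_⟩
  intro Ω _ ν _ R hR s S q hq0 hq
  have hfr : ∀ R, Q78.UW.Fr Hex.rule R κp (8 * m * 3) (fun w => ∏ i, wts pos i w ^ q i) :=
    fun R => hprod R (fun i w => wts pos i w ^ q i) fun i =>
      Q78.UW.fr_rpow hκ0 (Q78.UW.fr_of_fw (hfw i) R) G.hs m (q i) (hq0 i) (hq i)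
  obtain ⟨h1, h2, h3⟩ := h Ω ν R hR s S _ hfr
  have hμ : μ = Real.sqrt (2 + Real.sqrt 2) := rfl
  have hμ0 : 0 < μ := by
    rw [hμ]
    positivity
  have hY : ∀ k, Q78.UW.Ex.Yn Hex.rule (Real.sqrt (2 + Real.sqrt 2)) ν R s k =
      F ν R (2 * k + s) / μ ^ (2 * k + s) := by
    intro k
    unfold Q78.UW.Ex.Yn
    rw [hF]
    rfl
  have hYpos : ∀ k, 0 < F ν R (2 * k + s) / μ ^ (2 * k + s) ↔ 0 < F ν R (2 * k + s) :=
    fun k => div_pos_iff_of_pos_right (by positivity)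
  simp only [hY, hYpos] at h1 h2 h3
  obtain ⟨W, hW⟩ : ∃ W : List (ℤ × ℤ) → ℝ, W = fun w => ∏ i, wts pos i w ^ q i := ⟨_, rfl⟩
  rw [← hW] at h1 h2 h3
  have hMq : ∀ n, J ν R q n / F ν R n = cq q n * Q78.UW.mw Hex.A ν R W n := by
    intro n
    rw [hM, hW]
  -- positivity of the mean
  have hmwp : ∀ n, 1 ≤ n → 0 < F ν R n → 0 < Q78.UW.mw Hex.A ν R W n := by
    intro n hn hFn
    rw [hF] at hFn
    have := (Q78.UW.Ex.mw_bounds ν hR hfr n hn hFn).1
    rw [hW]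
    linarith
  refine ⟨?_, ?_, ?_⟩
  · intro β β' hS hpos hl hl'
    obtain ⟨g1, g2⟩ := h1 β (β' + (2 * q 1 + q 2)) hS hpos hl (by
      have h4 := hl'.sub ((lim_cq q s).mono_left (inf_le_left (b := 𝓟 S)))
      rw [sub_neg_eq_add] at h4
      refine h4.congr' ?_
      have h5 : ∀ᶠ k : ℕ in atTop ⊓ 𝓟 S, 0 < F ν R (2 * k + s) := by
        rw [eventually_inf_principal]
        exact hpos
      filter_upwards [h5, (eventually_ge_atTop 1).filter_mono inf_le_left] with k hk hk1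
      rw [hMq, Real.log_mul (cq_pos _ _).ne' (hmwp _ (by omega) hk).ne', ← sub_div,
        add_sub_cancel_left]
      rfl)
    refine ⟨g1, ?_⟩
    have h4 := g2.add (lim_cq q s)
    rw [add_neg_cancel_right] at h4
    -- positivity along all lengths
    have hposall : ∀ᶠ k : ℕ in atTop, 0 < F ν R (2 * k + s) := by
      obtain ⟨C', -, hm⟩ := Q78.UW.Ex.main G 0 0 le_rfl
      obtain ⟨b1, -, -, -⟩ := hm Ω ν R hR s S (fun _ => 1) (fun R => Q78.UW.fr_one _ R 0 0 le_rfl)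
      simp only [Q78.UW.Ex.Yn_eq, hY] at b1
      have := b1 (fun n => 1 + Real.log n) (fun n => β * Real.log n + 0) 1 1 Q294.Sp1.err_log
        (Q78.Z3.slow_log β 0) one_pos one_pos (by
          filter_upwards [hS 1 one_pos] with n hn
          obtain ⟨k, h1, h2, h3⟩ := hn
          refine ⟨k, h1, h2, h3.trans ?_⟩
          have h4 : √((n : ℝ) * Real.log n) ≤ √(n * (1 + Real.log n)) :=
            Real.sqrt_le_sqrt (mul_le_mul_of_nonneg_left (by linarith) (by positivity))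
          linarith) (by
          have h4 := Metric.tendsto_nhds.1 hl 1 one_pos
          rw [eventually_inf_principal] at h4
          filter_upwards [h4, hpos, eventually_gt_atTop 1] with n h4 hp h5 hnS
          have h51 : (1 : ℝ) < n := by exact_mod_cast h5
          have h52 : 0 < Real.log (n : ℝ) := Real.log_pos h51
          have h7 := h4 hnS
          rw [Real.dist_eq] at h7
          have h8 : Real.log (F ν R (2 * n + s) / μ ^ (2 * n + s)) - (β * Real.log n + 0) =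
              (Real.log (F ν R (2 * n + s) / μ ^ (2 * n + s)) / Real.log n - β) *
                Real.log n := by
            field_simp
            ring
          refine ⟨(hYpos n).2 (hp hnS), ?_⟩
          rw [h8, abs_mul, abs_of_pos h52]
          nlinarith)
      filter_upwards [this] with k hk using (hYpos k).1 hk.1
    refine h4.congr' ?_
    filter_upwards [hposall, eventually_ge_atTop 1] with k hk hk1
    rw [hMq, Real.log_mul (cq_pos _ _).ne' (hmwp _ (by omega) hk).ne', add_div, add_comm]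
    rfl
  · intro ψ φ hψ hφ hS hl hl'
    have e : ∀ k : ℕ, J ν R q (2 * k + s) / F ν R (2 * k + s) / Real.exp (φ k) =
        Q78.UW.mw Hex.A ν R W (Hex.rule.s * k + s) /
          Real.exp (φ k - Real.log (cq q (2 * k + s))) := by
      intro k
      rw [hMq, Real.exp_sub, Real.exp_log (cq_pos _ _)]
      have := (cq_pos q (2 * k + s)).ne'
      have := (Real.exp_pos (φ k)).ne'
      change cq q (2 * k + s) * Q78.UW.mw Hex.A ν R W (2 * k + s) / Real.exp (φ k) =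
        Q78.UW.mw Hex.A ν R W (2 * k + s) / (Real.exp (φ k) / cq q (2 * k + s))
      field_simp
    have hslow : Q78.Z3.Slow (fun k => φ k - Real.log (cq q (2 * k + s))) := by
      obtain ⟨B1, hB1⟩ := hφ
      obtain ⟨B2, hB2⟩ := slow_cq q s
      refine ⟨B1 + B2, fun m n hm hmn => ?_⟩
      have h3 := hB1 m n hm hmn
      have h4 := hB2 m n hm hmn
      have h5 : φ n - Real.log (cq q (2 * n + s)) - (φ m - Real.log (cq q (2 * m + s))) =
        (φ n - φ m) - (Real.log (cq q (2 * n + s)) - Real.log (cq q (2 * m + s))) := by ring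
      rw [h5, add_mul]
      exact (abs_sub _ _).trans (add_le_add h3 h4)
    simp only [e] at hl' ⊢
    exact h2 ψ _ hψ hslow hS hl hl'
  · intro τ δ hτ hδ hS hk
    have h4 := h3 τ δ hτ hδ hS hk
    rw [hs2] at h4
    have hlim : Tendsto (fun k : ℕ => C * √((1 + τ + δ ^ 2) * ((1 + Real.log (k : ℝ)) / k)))
        atTop (𝓝 0) := by
      have h2 := Q294.Sp1.err_log.lim.const_mul (1 + τ + δ ^ 2)
      rw [mul_zero] at h2
      have h3 := (Real.continuous_sqrt.tendsto 0).comp h2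
      rw [Real.sqrt_zero] at h3
      have h4 := h3.const_mul C
      rw [mul_zero] at h4
      exact h4
    filter_upwards [h4, hlim.eventually_le_const (show (0 : ℝ) < 1 by norm_num),
      eventually_ge_atTop 1] with k hk he hk1 n hn
    obtain ⟨a1, a2, a3, a4, a5⟩ := hk n hn
    rw [mul_div_assoc'] at he
    obtain ⟨e, hee⟩ : ∃ e, e = √((1 + τ + δ ^ 2) * (1 + Real.log (k : ℝ)) / k) := ⟨_, rfl⟩
    have he0 : 0 ≤ e := by rw [hee]; exact Real.sqrt_nonneg _
    rw [← hee] at a3 a4 a5 he ⊢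
    have hk0 : (0 : ℝ) < k := by exact_mod_cast (show 0 < k by omega)
    have hk1' : (1 : ℝ) ≤ k := by exact_mod_cast hk1
    have hCC : C * e ≤ (C + 2 * (2 * (3 * m + 1))) * e := by
      have : 0 ≤ 2 * (2 * (3 * (m : ℝ) + 1)) * e := by positivity
      linarith
    have hle : 1 / (k : ℝ) ≤ e := by
      have hlk : 0 ≤ Real.log (k : ℝ) := Real.log_natCast_nonneg k
      rw [hee]
      refine Real.le_sqrt_of_sq_le ?_
      rw [div_pow, one_pow]
      have h3 : 1 / (k : ℝ) ^ 2 ≤ 1 / k := one_div_le_one_div_of_le hk0 (by nlinarith)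
      refine h3.trans (div_le_div_of_nonneg_right ?_ hk0.le)
      nlinarith [mul_nonneg hτ.le hlk, mul_nonneg (sq_nonneg δ) hlk, sq_nonneg δ]
    have hFn : 0 < F ν R n := by rw [hF]; exact a1
    have hmn := hmwp n (by omega) hFn
    rw [hF, hF]
    refine ⟨a3.trans hCC, ?_, ?_, fun R' hR' hsub => ?_⟩
    · rw [← hF ν R n, hMq]
      exact mul_pos (cq_pos _ _) hmn
    · rw [← hF ν R n, ← hF ν R (n + 2), hMq, hMq, mul_div_mul_comm]
      obtain ⟨B, hB⟩ : ∃ B, B = Q78.UW.mw Hex.A ν R W (n + 2) / Q78.UW.mw Hex.A ν R W n := ⟨_, rfl⟩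
      rw [← hB] at a4 ⊢
      obtain ⟨D, hD⟩ : ∃ D, D = cq q (n + 2) / cq q n := ⟨_, rfl⟩
      have hD1 := cq_ratio m q hq0 hq n 2
      rw [← hD] at hD1 ⊢
      have hD2 : |D - 1| ≤ (3 * m + 1) * 2 * e := by
        refine hD1.trans ?_
        rw [mul_assoc]
        refine mul_le_mul_of_nonneg_left ?_ (by positivity)
        have h2 : ((2 : ℕ) : ℝ) / (n + (2 : ℕ) + 1) ≤ 2 / k := by
          refine div_le_div₀ (by norm_num) (by norm_num) hk0 ?_
          have : (k : ℝ) ≤ n := by exact_mod_cast (show k ≤ n by omega)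
          push_cast
          linarith
        refine h2.trans ?_
        rw [div_eq_mul_one_div]
        linarith
      have hB2 : |B| ≤ 2 := by
        have h1 := abs_le.1 (a4.trans he)
        rw [abs_le]
        constructor <;> linarith [h1.1, h1.2]
      have e2 : D * B - 1 = (D - 1) * B + (B - 1) := by ring
      rw [e2]
      refine (abs_add_le _ _).trans ?_
      rw [abs_mul]
      have h3 : |D - 1| * |B| ≤ (3 * m + 1) * 2 * e * 2 :=
        mul_le_mul hD2 hB2 (abs_nonneg _) (by positivity)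
      linarith
    · have q1 := cq_pos q n
      have q2 := cq_pos q (n + 2)
      rw [hJ, hJ, hJ, hJ, mul_div_mul_left _ _ q2.ne', mul_div_mul_left _ _ q1.ne', ← hW]
      exact (a5 R' hR' hsub).trans hCC

end Pool.Agent.Results.MP_b440f6_pr.SizeExponentsInDomains
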